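import Pool.Agent.Helper16.AZ.Stmts

/-! # Large correlations come from an eigenvector -/

namespace Pool.Agent.Helper16.AZ

open Finset Filter MeasureTheory Topology
open scoped ComplexConjugate InnerProductSpace
open Pool.Agent.Helper16.MD (MS PB Am RW Rich)

section aux

variable {V : Type} [NormedAddCommGroup V] [InnerProductSpace ℂ V] [CompleteSpace V]

theorem atm_unitary {A : V →L[ℂ] V} (hA : A ∈ unitary (V →L[ℂ] V)) (v w : V) :
    inner ℂ (A v) (A w) = inner ℂ v w := by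
  rw [← ContinuousLinearMap.adjoint_inner_right, ← ContinuousLinearMap.star_eq_adjoint]
  have : star A (A w) = (star A * A) w := rfl
  rw [this, (Unitary.mem_iff.1 hA).1]
  rfl

theorem atm_conj_mul {z : ℂ} (hz : ‖z‖ = 1) : conj z * z = 1 := by
  rw [← Complex.normSq_eq_conj_mul_self, Complex.normSq_eq_norm_sq, hz]
  simp

theorem atm_inner {U : V →L[ℂ] V} {ξ : V} (hU : U ∈ unitary (V →L[ℂ] V)) {ν : Measure ℂ}
    (hν : ∀ᵐ z ∂ν, ‖z‖ = 1) (hm : ∀ n : ℕ, ∫ z, z ^ n ∂ν = inner ℂ ξ ((U ^ n) ξ)) (a b : ℕ) :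
    inner ℂ ((U ^ a) ξ) ((U ^ b) ξ) = ∫ z, conj z ^ a * z ^ b ∂ν := by
  rcases le_total a b with hab | hab
  · obtain ⟨k, rfl⟩ := Nat.exists_eq_add_of_le hab
    have e1 : (U ^ (a + k)) ξ = (U ^ a) ((U ^ k) ξ) := by rw [pow_add]; rfl
    rw [e1, atm_unitary (pow_mem hU a), ← hm k]
    refine integral_congr_ae ?_
    filter_upwards [hν] with z hz
    have e2 := atm_conj_mul hz
    rw [pow_add, ← mul_assoc, ← mul_pow, e2, one_pow, one_mul]
  · obtain ⟨k, rfl⟩ := Nat.exists_eq_add_of_le hab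
    have e1 : (U ^ (b + k)) ξ = (U ^ b) ((U ^ k) ξ) := by rw [pow_add]; rfl
    rw [e1, atm_unitary (pow_mem hU b), ← inner_conj_symm, ← hm k, ← integral_conj]
    refine integral_congr_ae ?_
    filter_upwards [hν] with z hz
    have e2 := atm_conj_mul hz
    have e3 : conj z ^ (b + k) * z ^ b = (conj z * z) ^ b * conj z ^ k := by
      rw [pow_add, mul_pow]
      ring
    rw [e3, e2, one_pow, one_mul, map_pow]

end aux

theorem atm_integrable {ν : Measure ℂ} [IsFiniteMeasure ν] (hν : ∀ᵐ z ∂ν, ‖z‖ = 1) (a b : ℕ) :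
    Integrable (fun z : ℂ => conj z ^ a * z ^ b) ν := by
  have hc : Continuous (fun z : ℂ => conj z ^ a * z ^ b) := by fun_prop
  refine Integrable.mono' (integrable_const (1 : ℝ)) hc.aestronglyMeasurable ?_
  filter_upwards [hν] with z hz
  rw [norm_mul, norm_pow, norm_pow, RCLike.norm_conj, hz]
  simp

theorem atm_sum {ν : Measure ℂ} [IsFiniteMeasure ν] (hν : ∀ᵐ z ∂ν, ‖z‖ = 1) (I : ℕ → ℕ → ℂ)
    (hI : ∀ a b, I a b = ∫ z, conj z ^ a * z ^ b ∂ν) (p H : ℕ) :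
    ∑ h ∈ range H, ∑ h' ∈ range H, ‖I (p * h) (p * h')‖ ^ 2
      = ∫ z : ℂ × ℂ, ‖∑ h ∈ range H, (z.1 * conj z.2) ^ (p * h)‖ ^ 2 ∂(ν.prod ν) := by
  have h1 : ∀ a b : ℕ, ((‖I a b‖ ^ 2 : ℝ) : ℂ)
      = ∫ z : ℂ × ℂ, (z.1 * conj z.2) ^ b * conj ((z.1 * conj z.2) ^ a) ∂(ν.prod ν) := by
    intro a b
    have e1 : ((‖I a b‖ ^ 2 : ℝ) : ℂ) = I a b * conj (I a b) := by
      rw [Complex.mul_conj, Complex.normSq_eq_norm_sq]
    rw [e1, hI a b, ← integral_conj, ← integral_prod_mul]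
    refine integral_congr_ae (Filter.Eventually.of_forall fun z => ?_)
    simp only [map_mul, map_pow, Complex.conj_conj, mul_pow]
    ring
  have h2 : ∀ a b : ℕ, Integrable (fun z : ℂ × ℂ => (z.1 * conj z.2) ^ b
      * conj ((z.1 * conj z.2) ^ a)) (ν.prod ν) := by
    intro a b
    have := (atm_integrable hν a b).mul_prod (atm_integrable hν b a)
    refine this.congr (Filter.Eventually.of_forall fun z => ?_)
    simp only [map_mul, map_pow, Complex.conj_conj, mul_pow]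
    ring
  have h3 : ((∑ h ∈ range H, ∑ h' ∈ range H, ‖I (p * h) (p * h')‖ ^ 2 : ℝ) : ℂ)
      = ((∫ z : ℂ × ℂ, ‖∑ h ∈ range H, (z.1 * conj z.2) ^ (p * h)‖ ^ 2 ∂(ν.prod ν) : ℝ) : ℂ) := by
    rw [← integral_complex_ofReal]
    rw [Complex.ofReal_sum]
    simp only [Complex.ofReal_sum]
    have e1 : ∀ h ∈ range H, ∀ h' ∈ range H, ((‖I (p * h) (p * h')‖ ^ 2 : ℝ) : ℂ)
        = ∫ z : ℂ × ℂ, (z.1 * conj z.2) ^ (p * h') * conj ((z.1 * conj z.2) ^ (p * h))
          ∂(ν.prod ν) := fun h _ h' _ => h1 _ _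
    rw [Finset.sum_congr rfl fun h hh => Finset.sum_congr rfl fun h' hh' => e1 h hh h' hh']
    have e2 : ∀ h ∈ range H, ∑ h' ∈ range H, ∫ z : ℂ × ℂ, (z.1 * conj z.2) ^ (p * h')
        * conj ((z.1 * conj z.2) ^ (p * h)) ∂(ν.prod ν)
        = ∫ z : ℂ × ℂ, ∑ h' ∈ range H, (z.1 * conj z.2) ^ (p * h')
        * conj ((z.1 * conj z.2) ^ (p * h)) ∂(ν.prod ν) := fun h _ =>
      (integral_finsetSum _ fun h' _ => h2 _ _).symm
    rw [Finset.sum_congr rfl e2, ← integral_finsetSum]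
    · refine integral_congr_ae (Filter.Eventually.of_forall fun z => ?_)
      simp only
      have e3 : ((‖∑ h ∈ range H, (z.1 * conj z.2) ^ (p * h)‖ ^ 2 : ℝ) : ℂ)
          = (∑ h ∈ range H, (z.1 * conj z.2) ^ (p * h))
            * conj (∑ h ∈ range H, (z.1 * conj z.2) ^ (p * h)) := by
        rw [Complex.mul_conj, Complex.normSq_eq_norm_sq]
      rw [e3, map_sum, Finset.sum_mul_sum, Finset.sum_comm]
    · intro h _
      exact integrable_finsetSum _ fun h' _ => h2 _ _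
  exact_mod_cast h3

/-- large correlations come from an eigenvector -/
theorem st_ATM (h1 : ST_MSR) (h2 : ST_ATA) : ST_ATM := by
  intro κ Cn hκ hκ1 hCn V _ _ _ U ξ hU hξ hfr
  obtain ⟨ν, hfin, hν, hm, hat⟩ := h1 V U ξ hU
  have hin := atm_inner hU hν hm
  have hmass : (ν Set.univ).toReal ≤ 1 := by
    have e1 := hm 0
    simp only [pow_zero, integral_const, one_apply_eq_self] at e1
    have e2 : ((ν Set.univ).toReal : ℂ) = inner ℂ ξ ξ := by
      rw [← e1]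
      simp [Measure.real]
    have e4 := congrArg Complex.re e2
    have e5 : (inner ℂ ξ ξ : ℂ).re = ‖ξ‖ ^ 2 := inner_self_eq_norm_sq (𝕜 := ℂ) ξ
    rw [e5, Complex.ofReal_re] at e4
    have e3 : (ν Set.univ).toReal = ‖ξ‖ ^ 2 := e4
    rw [e3]
    nlinarith [norm_nonneg ξ]
  obtain ⟨z₀, hz₀, hz⟩ := h2 κ Cn ν hκ hκ1 hCn hmass hν (hfr.mono fun i hi => by
    refine ⟨hi.1, lt_of_lt_of_eq hi.2 ?_⟩
    refine Finset.sum_congr rfl fun p _ => ?_
    exact atm_sum hν (fun a b => inner ℂ ((U ^ a) ξ) ((U ^ b) ξ)) hin p (Cn * 2 ^ i))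
  obtain ⟨η, hη1, hη2, hη3⟩ := hat z₀ hz₀
  refine ⟨η, hη1.trans hξ, ⟨z₀, hz₀, hη2⟩, ?_⟩
  rw [norm_inner_symm, hη3, Complex.norm_real, Real.norm_of_nonneg ENNReal.toReal_nonneg]
  exact hz

end Pool.Agent.Helper16.AZ
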